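import Pool.Agent.Helper8.UN.Stmts

set_option autoImplicit false

open Finset

namespace Pool.Agent.Helper8.UN

theorem hsf_nb {n D0 r : ℕ} {E : Finset (Finset (Fin n))} (hr : 4 ≤ r) (hE : Deg E D0 r)
    (W : Finset (Fin n)) (y : Fin n) : (nb E W y).card ≤ D0 := by
  classical
  refine le_trans ?_ (hE y)
  refine Finset.card_le_card_of_injOn (fun z => ({y, z} : Finset (Fin n))) ?_ ?_
  · intro z hz
    simp only [nb, Finset.coe_filter, Set.mem_ofPred_eq] at hz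
    simp only [Finset.coe_filter, Set.mem_ofPred_eq]
    refine ⟨hz.2.2, by simp, ?_⟩
    have : ({y, z} : Finset (Fin n)).card ≤ 2 := Finset.card_le_two
    omega
  · intro z hz z' hz' h
    simp only [nb, Finset.coe_filter, Set.mem_ofPred_eq] at hz hz'
    have h1 : z ∈ ({y, z'} : Finset (Fin n)) := by
      have h2 : z ∈ ({y, z} : Finset (Fin n)) := by simp
      have h3 : ({y, z} : Finset (Fin n)) = {y, z'} := h
      rwa [h3] at h2
    simp only [Finset.mem_insert, Finset.mem_singleton] at h1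
    rcases h1 with h1 | h1
    · exact absurd h1 hz.2.1
    · exact h1

theorem hsf_fil {α : Type*} (s : Finset α) (p : α → Prop) (inst : DecidablePred p) {x : α}
    (h : x ∈ @Finset.filter α p inst s) : x ∈ s :=
  Finset.mem_of_mem_filter x h

theorem hsf_sub {n : ℕ} {E : Finset (Finset (Fin n))} {W : Finset (Fin n)} {k : ℕ}
    {f : Fin n → ℕ} (hf : f ∈ SS E W k) : f ∈ CC E W k :=
  hsf_fil _ _ _ hf

/-- the comparison of the two averages by a coupling -/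
theorem hsf_cpl {n : ℕ} {S T : Finset (Fin n → ℕ)} {ω : (Fin n → ℕ) → (Fin n → ℕ) → ℝ}
    (hω : Cpl S T ω) (N : Finset (Fin n)) (a b u w : (Fin n → ℕ) → ℝ) (M : ℝ)
    (hM : ∀ z, pne S T ω z ≤ M)
    (h : ∀ f ∈ S, ∀ g ∈ T, a f - b g ≤ ((N.filter (fun z => f z ≠ g z)).card : ℝ) + u f + w g) :
    (∑ f ∈ S, a f) / (S.card : ℝ) - (∑ g ∈ T, b g) / (T.card : ℝ) ≤
      N.card * M + (∑ f ∈ S, u f) / (S.card : ℝ) + (∑ g ∈ T, w g) / (T.card : ℝ) := by
  classical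
  have e1 : ∀ c : (Fin n → ℕ) → ℝ, (∑ f ∈ S, c f) / (S.card : ℝ) =
      ∑ f ∈ S, ∑ g ∈ T, ω f g * c f := by
    intro c
    rw [Finset.sum_div]
    refine Finset.sum_congr rfl fun f hf => ?_
    rw [← Finset.sum_mul, hω.l f hf]; ring
  have e2 : ∀ c : (Fin n → ℕ) → ℝ, (∑ g ∈ T, c g) / (T.card : ℝ) =
      ∑ f ∈ S, ∑ g ∈ T, ω f g * c g := by
    intro c
    rw [Finset.sum_comm, Finset.sum_div]
    refine Finset.sum_congr rfl fun g hg => ?_
    rw [← Finset.sum_mul, hω.r g hg]; ring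
  have e3 : ∑ f ∈ S, ∑ g ∈ T, ω f g * ((N.filter (fun z => f z ≠ g z)).card : ℝ) =
      ∑ z ∈ N, pne S T ω z := by
    unfold pne
    rw [Finset.sum_comm' (s := N) (t := fun _ => S) (t' := S) (s' := fun _ => N) (by simp)]
    refine Finset.sum_congr rfl fun f _ => ?_
    rw [Finset.sum_comm' (s := N) (t := fun _ => T) (t' := T) (s' := fun _ => N) (by simp)]
    refine Finset.sum_congr rfl fun g _ => ?_
    rw [Finset.card_filter, Nat.cast_sum, Finset.mul_sum]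
    refine Finset.sum_congr rfl fun z _ => ?_
    by_cases hz : f z = g z <;> simp [hz]
  have e4 : ∑ z ∈ N, pne S T ω z ≤ N.card * M := by
    calc ∑ z ∈ N, pne S T ω z ≤ ∑ z ∈ N, M := Finset.sum_le_sum fun z _ => hM z
      _ = N.card * M := by rw [Finset.sum_const, nsmul_eq_mul]
  rw [e1 a, e2 b, e1 u, e2 w]
  calc (∑ f ∈ S, ∑ g ∈ T, ω f g * a f) - ∑ f ∈ S, ∑ g ∈ T, ω f g * b g
      = ∑ f ∈ S, ∑ g ∈ T, ω f g * (a f - b g) := by
        simp only [mul_sub, Finset.sum_sub_distrib]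
    _ ≤ ∑ f ∈ S, ∑ g ∈ T, ω f g *
          (((N.filter (fun z => f z ≠ g z)).card : ℝ) + u f + w g) :=
        Finset.sum_le_sum fun f hf => Finset.sum_le_sum fun g hg =>
          mul_le_mul_of_nonneg_left (h f hf g hg) (hω.nn f g)
    _ = (∑ f ∈ S, ∑ g ∈ T, ω f g * ((N.filter (fun z => f z ≠ g z)).card : ℝ)) +
          (∑ f ∈ S, ∑ g ∈ T, ω f g * u f) + ∑ f ∈ S, ∑ g ∈ T, ω f g * w g := by
        simp only [mul_add, Finset.sum_add_distrib]
    _ ≤ N.card * M + (∑ f ∈ S, ∑ g ∈ T, ω f g * u f) + ∑ f ∈ S, ∑ g ∈ T, ω f g * w g := by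
        rw [e3]; gcongr

theorem hsf_large : ∃ n₁ : ℕ, ∀ n ≥ n₁, 100 ≤ n ∧ 2 ≤ Real.log n ∧
    Real.log n ^ 3 ≤ (n : ℝ) := by
  have h1 : ∀ᶠ x : ℝ in Filter.atTop, ‖Real.log x ^ (3 : ℕ)‖ ≤ 1 * ‖x‖ := by
    have := isLittleO_log_rpow_rpow_atTop (s := (1 : ℝ)) 3 one_pos
    have h2 := this.bound (c := 1) one_pos
    filter_upwards [h2] with x hx
    simpa using hx
  have h2 : ∀ᶠ x : ℝ in Filter.atTop, 2 ≤ Real.log x :=
    Real.tendsto_log_atTop.eventually_ge_atTop 2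
  have h3 := (h1.and h2)
  have h4 : ∀ᶠ n : ℕ in Filter.atTop, ‖Real.log (n : ℝ) ^ (3 : ℕ)‖ ≤ 1 * ‖(n : ℝ)‖ ∧
      2 ≤ Real.log (n : ℝ) := (tendsto_natCast_atTop_atTop (R := ℝ)).eventually h3
  obtain ⟨n₁, h⟩ := Filter.eventually_atTop.1 (h4.and (Filter.eventually_ge_atTop 100))
  refine ⟨n₁, fun n hn => ?_⟩
  obtain ⟨⟨ha, hb⟩, hc⟩ := h n hn
  refine ⟨hc, hb, ?_⟩
  have h5 : (0 : ℝ) ≤ Real.log n ^ 3 := by positivity
  rw [Real.norm_of_nonneg h5, Real.norm_of_nonneg (Nat.cast_nonneg n), one_mul] at ha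
  exact ha

theorem st_HSF (hH2 : ST_H2) (hBKC : ST_BKC) (hBL3 : ST_BL3) (hB3N : ST_B3N) (hBKD : ST_BKD)
    (hSNG : ST_SNG) (hPOS : ST_POS) : ST_HSF := by
  classical
  obtain ⟨n1, h1⟩ := hB3N
  obtain ⟨n2, h2⟩ := hSNG
  obtain ⟨n3, h3⟩ := hsf_large
  refine ⟨max n1 (max n2 n3), ?_⟩
  intro n hn D0 r m E W v hR hm1 hm2 hW hv
  have hn1 : n1 ≤ n := le_trans (le_max_left _ _) hn
  have hn2 : n2 ≤ n := le_trans (le_trans (le_max_left _ _) (le_max_right _ _)) hn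
  have hn3 : n3 ≤ n := le_trans (le_trans (le_max_right _ _) (le_max_right _ _)) hn
  obtain ⟨hn100, hL2, hL3⟩ := h3 n hn3
  have hnR : (100 : ℝ) ≤ n := by exact_mod_cast hn100
  have hLpos : (0 : ℝ) < Real.log n := by linarith
  have hnL : (0 : ℝ) < n / Real.log n := by positivity
  obtain ⟨hr4, hD, hD0, hm10, _, hbr⟩ := h1 n hn1 D0 r m hR.d0 hR.r0 (by
    refine le_trans ?_ hm1
    exact mul_le_mul_of_nonneg_right (by norm_num) hnL.le)
  set D : ℕ := DD n D0 r with hDdef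
  have hBD : BD E D := hBKD n D0 r E hR.two hr4 hR.deg
  have hDm : D < m := by omega
  set W1 : Finset (Fin n) := W.erase v with hW1def
  have hW1c : W1.card + 1 = W.card := Finset.card_erase_add_one hv
  have hW1c' : (W1.card : ℝ) = (W.card : ℝ) - 1 := by
    have : ((W1.card + 1 : ℕ) : ℝ) = (W.card : ℝ) := by rw [hW1c]
    push_cast at this; linarith
  have hW1R : 9 / 10 * (n : ℝ) ≤ W1.card := by rw [hW1c']; linarith
  have hmW1 : m ≤ W1.card := by
    have h5 : (m : ℝ) ≤ W1.card := by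
      refine le_trans (le_trans hm2 ?_) hW1R
      have : (n : ℝ) / Real.log n ≤ n / 2 := by
        apply div_le_div_of_nonneg_left (by positivity) (by norm_num) hL2
      nlinarith
    exact_mod_cast h5
  obtain ⟨hPP, hAA'⟩ := hPOS n D m E W1 hR.two hBD hDm
  have hAA : 0 < AA E W1 m := hAA' hmW1
  have hτ : (0 : ℝ) < 1 / 20000 := by norm_num
  have hq : (0 : ℝ) ≤ 5 / Real.log n ^ 2 := by positivity
  have hbr' : (D0 / ((m : ℝ) - D) + n * n.choose (r - 1) / ((m : ℝ) - D) ^ (r - 2)) ≤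
      1 / 20000 := by
    have : (0 : ℝ) ≤ 1 / n := by positivity
    linarith
  -- bounds of the averages of bl3
  have hb1 : ∀ (V V' : Finset (Fin n)) (y : Fin n), y ∈ V → (V' = V ∨ V' = V.erase y) →
      ∑ f ∈ CC E V' m, (bl3 E V m f y : ℝ) ≤ PP E V' m * (1 / 20000) ∧
      ∑ f ∈ SS E V' m, (bl3 E V m f y : ℝ) ≤ AA E V' m * (1 / 20000) := by
    intro V V' y hy hV'
    obtain ⟨ha, hb⟩ := hBL3 n D0 D r m E V V' y hR.two hBD hDm hr4 hR.deg hy hV'
    exact ⟨le_trans ha (mul_le_mul_of_nonneg_left hbr' (Nat.cast_nonneg _)),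
      le_trans hb (mul_le_mul_of_nonneg_left hbr' (Nat.cast_nonneg _))⟩
  obtain ⟨ω, hω, hpne⟩ := hH2 n D0 D m E W1 (1 / 20000) (5 / Real.log n ^ 2) hR.two hBD hDm
    (by omega) (fun y _ => hsf_nb hr4 hR.deg W1 y) hτ hq hAA
    (fun y hy => (hb1 W1 W1 y hy (Or.inl rfl)).2)
    (fun y hy => (hb1 W1 W1 y hy (Or.inl rfl)).1)
    (fun y hy => h2 n hn2 D0 r m E W1 y hR hm2 hW1R hy)
  have hmD : (0 : ℝ) < (m : ℝ) - D := by
    have : (D : ℝ) < m := by exact_mod_cast hDm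
    linarith
  have hkey := hsf_cpl hω (nb E W v) (fun f => (bk E W m f v : ℝ)) (fun g => (bk E W m g v : ℝ))
    (fun f => (bl3 E W m f v : ℝ)) (fun g => (bl3 E W m g v : ℝ)) _ hpne (by
      intro f hf g hg
      have hf' : f ∈ CC E (W.erase v) m := by
        exact hsf_sub hf
      exact le_trans (le_abs_self _) (hBKC n m m E W v f g hR.two hv hf' hg))
  obtain ⟨hc1, hc2⟩ := hb1 W W1 v hv (Or.inr rfl)
  have hs1 : (∑ f ∈ SS E W1 m, (bl3 E W m f v : ℝ)) / ((SS E W1 m).card : ℝ) ≤ 1 / 20000 := by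
    have hpos : (0 : ℝ) < ((SS E W1 m).card : ℝ) := by exact_mod_cast hAA
    rw [div_le_iff₀ hpos]
    rw [mul_comm]
    exact hc2
  have hs2 : (∑ f ∈ CC E W1 m, (bl3 E W m f v : ℝ)) / ((CC E W1 m).card : ℝ) ≤ 1 / 20000 := by
    have hpos : (0 : ℝ) < ((CC E W1 m).card : ℝ) := by exact_mod_cast hPP
    rw [div_le_iff₀ hpos]
    rw [mul_comm]
    exact hc1
  have hnb : ((nb E W v).card : ℝ) ≤ D0 := by exact_mod_cast hsf_nb hr4 hR.deg W v
  have hM0 : (0 : ℝ) ≤ 3 * (5 / Real.log n ^ 2 + 2 * (1 / 20000) / ((m : ℝ) - D)) := by positivity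
  have hfin : (D0 : ℝ) * (3 * (5 / Real.log n ^ 2 + 2 * (1 / 20000) / ((m : ℝ) - D))) ≤
      1 / 2 * (n / Real.log n ^ 3) + 1 / 10000 := by
    have ha : (D0 : ℝ) * (3 * (5 / Real.log n ^ 2)) ≤ 1 / 2 * (n / Real.log n ^ 3) := by
      have hb : (D0 : ℝ) * (3 * (5 / Real.log n ^ 2)) ≤
          1 / 100000 * (n / Real.log n) * (3 * (5 / Real.log n ^ 2)) :=
        mul_le_mul_of_nonneg_right hR.d0 (by positivity)
      have hc : 1 / 100000 * ((n : ℝ) / Real.log n) * (3 * (5 / Real.log n ^ 2)) =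
          15 / 100000 * (n / Real.log n ^ 3) := by
        field_simp
        norm_num
      rw [hc] at hb
      have hd : (0 : ℝ) ≤ n / Real.log n ^ 3 := by positivity
      nlinarith
    have hb : (D0 : ℝ) * (3 * (2 * (1 / 20000) / ((m : ℝ) - D))) ≤ 1 / 10000 := by
      have hc : (D0 : ℝ) * 3 ≤ (m : ℝ) - D := by
        have h6 : D0 * 3 + D ≤ m := by omega
        have h7 : ((D0 * 3 + D : ℕ) : ℝ) ≤ m := by exact_mod_cast h6
        push_cast at h7; linarith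
      have he : (D0 : ℝ) * (3 * (2 * (1 / 20000) / ((m : ℝ) - D))) =
          (D0 * 3) / ((m : ℝ) - D) * (1 / 10000) := by
        field_simp
        ring
      rw [he]
      have hg : (D0 * 3 : ℝ) / ((m : ℝ) - D) ≤ 1 := by
        rw [div_le_one hmD]; exact hc
      nlinarith
    calc (D0 : ℝ) * (3 * (5 / Real.log n ^ 2 + 2 * (1 / 20000) / ((m : ℝ) - D)))
        = (D0 : ℝ) * (3 * (5 / Real.log n ^ 2)) +
          (D0 : ℝ) * (3 * (2 * (1 / 20000) / ((m : ℝ) - D))) := by ring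
      _ ≤ _ := add_le_add ha hb
  have hprod : ((nb E W v).card : ℝ) *
      (3 * (5 / Real.log n ^ 2 + 2 * (1 / 20000) / ((m : ℝ) - D))) ≤
      1 / 2 * (n / Real.log n ^ 3) + 1 / 10000 :=
    le_trans (mul_le_mul_of_nonneg_right hnb hM0) hfin
  have hone : (1 : ℝ) ≤ n / Real.log n ^ 3 := by
    rw [le_div_iff₀ (by positivity)]; linarith
  have hgoal : hs E W m v - hh E W m v ≤ n / Real.log n ^ 3 := by
    have : hs E W m v - hh E W m v ≤ 1 / 2 * (n / Real.log n ^ 3) + 1 / 10000 + 1 / 20000 +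
        1 / 20000 := by
      have hx := hkey
      have : hs E W m v - hh E W m v =
        (∑ f ∈ SS E W1 m, (bk E W m f v : ℝ)) / ((SS E W1 m).card : ℝ) -
        (∑ g ∈ CC E W1 m, (bk E W m g v : ℝ)) / ((CC E W1 m).card : ℝ) := rfl
      rw [this]
      simp only at hx
      linarith
    linarith
  linarith

end Pool.Agent.Helper8.UN
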